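import Pool.Agent.Helper54_LOC.StmtLow

/-!
# LOC: module LOW
-/

set_option autoImplicit false

open MeasureTheory ProbabilityTheory

open scoped ENNReal NNReal BigOperators

noncomputable section

namespace Pool.Agent.LOC.H28

open Matrix Pool.Agent.Anderson Pool.Agent.Loc Pool.Agent.BED

variable {d : ℕ}

/-! ### the deterministic part -/

/-- the function `G V 1` -/
def gv (Λ : Finset (Site d)) (a : ℝ) (V : Site d → ℝ) (x : Site d) : ℝ :=
  ∑ y ∈ Λ, gr 0 Λ (2 * d + a) x y * V y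

theorem gv_eq {Λ : Finset (Site d)} {a : ℝ} (ha : 0 < a) (V : Site d → ℝ) {x : Site d}
    (hx : x ∈ Λ) :
    ∑ z ∈ Λ, hop x z * gv Λ a V z = (2 * d + a) * gv Λ a V x - V x := by
  have hE : 2 * (d : ℝ) < 2 * d + a := by linarith only [ha]
  have h1 : ∀ y ∈ Λ, (2 * d + a) * gr 0 Λ (2 * d + a) x y -
      ∑ z ∈ Λ, hop x z * gr 0 Λ (2 * d + a) z y = if y = x then 1 else 0 := by
    intro y hy
    rw [← gr_zero_eq hE hy hx, gr_symm _ _ _ x y]
    congr 1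
    exact Finset.sum_congr rfl fun z _ => by rw [gr_symm _ _ _ z y]
  have h2 : ∑ y ∈ Λ, ((2 * d + a) * gr 0 Λ (2 * d + a) x y -
      ∑ z ∈ Λ, hop x z * gr 0 Λ (2 * d + a) z y) * V y = V x := by
    rw [Finset.sum_congr rfl fun y hy => by rw [h1 y hy]]
    simp [hx]
  have h3 : ∑ z ∈ Λ, hop x z * gv Λ a V z =
      ∑ y ∈ Λ, (∑ z ∈ Λ, hop x z * gr 0 Λ (2 * d + a) z y) * V y := by
    unfold gv
    simp_rw [Finset.mul_sum, Finset.sum_mul]
    rw [Finset.sum_comm]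
    refine Finset.sum_congr rfl fun y _ => Finset.sum_congr rfl fun z _ => by ring
  have h4 : (2 * d + a) * gv Λ a V x =
      ∑ y ∈ Λ, (∑ z ∈ Λ, hop x z * gr 0 Λ (2 * d + a) z y) * V y +
      ∑ y ∈ Λ, ((2 * d + a) * gr 0 Λ (2 * d + a) x y -
        ∑ z ∈ Λ, hop x z * gr 0 Λ (2 * d + a) z y) * V y := by
    unfold gv
    rw [Finset.mul_sum, ← Finset.sum_add_distrib]
    exact Finset.sum_congr rfl fun y _ => by ring
  rw [h3, h4, h2]
  ring

/-- the degree of `y` in `Λ` -/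
def dg (Λ : Finset (Site d)) (y : Site d) : ℝ := ∑ z ∈ Λ, hop y z

theorem hf_one_add {Λ : Finset (Site d)} {a : ℝ} (ha : 0 < a) (V : Site d → ℝ) :
    hf Λ (fun y => 1 + gv Λ a V y) = ∑ y ∈ Λ, dg Λ y + 2 * ∑ y ∈ Λ, dg Λ y * gv Λ a V y +
      ((2 * d + a) * ∑ y ∈ Λ, gv Λ a V y ^ 2 - ∑ y ∈ Λ, V y * gv Λ a V y) := by
  have h1 : hf Λ (fun y => 1 + gv Λ a V y) = ∑ y ∈ Λ, ∑ z ∈ Λ, hop y z +
      ∑ y ∈ Λ, ∑ z ∈ Λ, hop y z * gv Λ a V y + ∑ y ∈ Λ, ∑ z ∈ Λ, hop y z * gv Λ a V z +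
      ∑ y ∈ Λ, ∑ z ∈ Λ, gv Λ a V y * (hop y z * gv Λ a V z) := by
    unfold hf
    simp_rw [← Finset.sum_add_distrib]
    exact Finset.sum_congr rfl fun y _ => Finset.sum_congr rfl fun z _ => by ring
  have h2 : ∑ y ∈ Λ, ∑ z ∈ Λ, hop y z * gv Λ a V z = ∑ y ∈ Λ, dg Λ y * gv Λ a V y := by
    rw [Finset.sum_comm]
    refine Finset.sum_congr rfl fun y _ => ?_
    unfold dg
    rw [Finset.sum_mul]
    exact Finset.sum_congr rfl fun z _ => by rw [hop_comm]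
  have h3 : ∑ y ∈ Λ, ∑ z ∈ Λ, hop y z * gv Λ a V y = ∑ y ∈ Λ, dg Λ y * gv Λ a V y := by
    refine Finset.sum_congr rfl fun y _ => ?_
    unfold dg
    rw [Finset.sum_mul]
  have h4 : ∑ y ∈ Λ, ∑ z ∈ Λ, gv Λ a V y * (hop y z * gv Λ a V z) =
      (2 * d + a) * ∑ y ∈ Λ, gv Λ a V y ^ 2 - ∑ y ∈ Λ, V y * gv Λ a V y := by
    rw [Finset.mul_sum, ← Finset.sum_sub_distrib]
    refine Finset.sum_congr rfl fun y hy => ?_
    rw [← Finset.mul_sum, gv_eq ha V hy]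
    ring
  rw [h1, h2, h3, h4]
  unfold dg
  ring

/-- the value of the form at the trial function -/
def XX (Λ : Finset (Site d)) (a s : ℝ) (V : Site d → ℝ) : ℝ :=
  ∑ y ∈ Λ, V y * (1 + gv Λ a V y) ^ 2 + hf Λ (fun y => 1 + gv Λ a V y) -
    s * ∑ y ∈ Λ, (1 + gv Λ a V y) ^ 2

theorem XX_eq {Λ : Finset (Site d)} {a : ℝ} (ha : 0 < a) (s : ℝ) (V : Site d → ℝ) :
    XX Λ a s V = (∑ y ∈ Λ, dg Λ y - s * Λ.card) + ∑ y ∈ Λ, V y + ∑ y ∈ Λ, V y * gv Λ a V y +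
      ∑ y ∈ Λ, V y * gv Λ a V y ^ 2 + 2 * ∑ y ∈ Λ, dg Λ y * gv Λ a V y +
      (2 * d + a - s) * ∑ y ∈ Λ, gv Λ a V y ^ 2 - 2 * s * ∑ y ∈ Λ, gv Λ a V y := by
  unfold XX
  rw [hf_one_add ha V]
  have h1 : ∑ y ∈ Λ, V y * (1 + gv Λ a V y) ^ 2 = ∑ y ∈ Λ, V y +
      2 * ∑ y ∈ Λ, V y * gv Λ a V y + ∑ y ∈ Λ, V y * gv Λ a V y ^ 2 := by
    rw [Finset.mul_sum]
    simp_rw [← Finset.sum_add_distrib]
    exact Finset.sum_congr rfl fun y _ => by ring
  have h2 : ∑ y ∈ Λ, (1 + gv Λ a V y) ^ 2 = Λ.card + 2 * ∑ y ∈ Λ, gv Λ a V y +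
      ∑ y ∈ Λ, gv Λ a V y ^ 2 := by
    rw [Finset.mul_sum]
    have : (Λ.card : ℝ) = ∑ _y ∈ Λ, 1 := by simp
    rw [this]
    simp_rw [← Finset.sum_add_distrib]
    exact Finset.sum_congr rfl fun y _ => by ring
  rw [h1, h2]
  ring

/-- crude bound of the form -/
theorem abs_XX_le {Λ : Finset (Site d)} {a s t : ℝ} (ht : 0 < t) (ht1 : t ≤ 1) (ha : t ^ 2 ≤ a)
    (V : Site d → ℝ) {S : ℝ} (hS : ∑ y ∈ Λ, |V y| ≤ t * S) (hS0 : 0 ≤ S) :
    |XX Λ a s V| ≤ Λ.card * ((1 + S) / t) ^ 2 * ((2 * d + |s| + 1) * (1 + S)) := by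
  have ha0 : 0 < a := lt_of_lt_of_le (by positivity) ha
  have hE : 2 * (d : ℝ) < 2 * d + a := by linarith only [ha0]
  have hg : ∀ x, |gv Λ a V x| ≤ S / t := by
    intro x
    have h1 : ∀ y ∈ Λ, gr 0 Λ (2 * d + a) x y ≤ 1 / a := fun y hy =>
      (Finset.single_le_sum (f := fun y => gr 0 Λ (2 * d + a) x y)
        (fun z _ => gr_zero_nonneg Λ hE x z) hy).trans (sum_gr_zero_le Λ ha0 x)
    calc |gv Λ a V x| ≤ ∑ y ∈ Λ, |gr 0 Λ (2 * d + a) x y * V y| := Finset.abs_sum_le_sum_abs _ _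
      _ ≤ ∑ y ∈ Λ, 1 / a * |V y| := by
          refine Finset.sum_le_sum fun y hy => ?_
          rw [abs_mul, abs_of_nonneg (gr_zero_nonneg Λ hE x y)]
          exact mul_le_mul_of_nonneg_right (h1 y hy) (abs_nonneg _)
      _ = 1 / a * ∑ y ∈ Λ, |V y| := by rw [Finset.mul_sum]
      _ ≤ 1 / a * (t * S) := by gcongr
      _ ≤ 1 / t ^ 2 * (t * S) := by gcongr
      _ = S / t := by field_simp
  have hu : ∀ x, (1 + gv Λ a V x) ^ 2 ≤ ((1 + S) / t) ^ 2 := by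
    intro x
    rw [← sq_abs]
    apply pow_le_pow_left₀ (abs_nonneg _)
    calc |1 + gv Λ a V x| ≤ 1 + |gv Λ a V x| := by
          have := abs_add_le 1 (gv Λ a V x)
          rwa [abs_one] at this
      _ ≤ 1 / t + S / t := by
          apply add_le_add _ (hg x)
          rw [le_div_iff₀ ht]; linarith only [ht1]
      _ = (1 + S) / t := by ring
  have hV : ∀ y ∈ Λ, |V y| ≤ S := by
    intro y hy
    have := (Finset.single_le_sum (f := fun y => |V y|) (fun z _ => abs_nonneg _) hy).trans hS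
    nlinarith only [this, hS0, ht1]
  have hsum : ∑ y ∈ Λ, (1 + gv Λ a V y) ^ 2 ≤ Λ.card * ((1 + S) / t) ^ 2 := by
    calc _ ≤ ∑ _y ∈ Λ, ((1 + S) / t) ^ 2 := Finset.sum_le_sum fun y _ => hu y
      _ = _ := by simp
  have hsum0 : 0 ≤ ∑ y ∈ Λ, (1 + gv Λ a V y) ^ 2 := Finset.sum_nonneg fun y _ => sq_nonneg _
  have e1 : |∑ y ∈ Λ, V y * (1 + gv Λ a V y) ^ 2| ≤ S * ∑ y ∈ Λ, (1 + gv Λ a V y) ^ 2 := by
    rw [Finset.mul_sum]
    refine (Finset.abs_sum_le_sum_abs _ _).trans (Finset.sum_le_sum fun y hy => ?_)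
    rw [abs_mul, abs_of_nonneg (sq_nonneg (1 + gv Λ a V y))]
    exact mul_le_mul_of_nonneg_right (hV y hy) (sq_nonneg _)
  have e2 := abs_hf_le Λ (fun y => 1 + gv Λ a V y)
  have e3 : |s * ∑ y ∈ Λ, (1 + gv Λ a V y) ^ 2| ≤ |s| * ∑ y ∈ Λ, (1 + gv Λ a V y) ^ 2 := by
    rw [abs_mul, abs_of_nonneg hsum0]
  have e4 : |XX Λ a s V| ≤ (S + 2 * d + |s|) * ∑ y ∈ Λ, (1 + gv Λ a V y) ^ 2 := by
    unfold XX
    rw [abs_le] at e1 e2 e3 ⊢
    constructor <;> nlinarith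
  have hs0 := abs_nonneg s
  have hd0 : (0 : ℝ) ≤ d := Nat.cast_nonneg d
  calc |XX Λ a s V| ≤ (S + 2 * d + |s|) * ∑ y ∈ Λ, (1 + gv Λ a V y) ^ 2 := e4
    _ ≤ (S + 2 * d + |s|) * (Λ.card * ((1 + S) / t) ^ 2) := by gcongr
    _ ≤ ((2 * d + |s| + 1) * (1 + S)) * (Λ.card * ((1 + S) / t) ^ 2) := by
        apply mul_le_mul_of_nonneg_right _ (by positivity)
        have : 0 ≤ (2 * d + |s|) * S := by positivity
        nlinarith only [hs0, hS0]
    _ = _ := by ring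

/-- the volume term -/
theorem sum_dg_ge (L : ℕ) : 2 * (d : ℝ) * ((2 * L + 1 : ℝ) ^ d * (1 - 2 * d / (2 * L + 1))) ≤
    ∑ y ∈ box (0 : Site d) L, dg (box 0 L) y := by
  rcases Nat.eq_zero_or_pos L with hL | hL
  · subst hL
    have h0 : 0 ≤ ∑ y ∈ box (0 : Site d) 0, dg (box 0 0) y :=
      Finset.sum_nonneg fun y _ => Finset.sum_nonneg fun z _ => hop_nonneg y z
    refine le_trans ?_ h0
    rcases Nat.eq_zero_or_pos d with hd | hd
    · subst hd; simp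
    · have : (1 : ℝ) ≤ d := by exact_mod_cast hd
      simp
      nlinarith only [this]
  have h1 : ∑ y ∈ box (0 : Site d) (L - 1), dg (box 0 L) y ≤
      ∑ y ∈ box (0 : Site d) L, dg (box 0 L) y :=
    Finset.sum_le_sum_of_subset_of_nonneg (box_mono _ (by omega))
      fun y _ _ => Finset.sum_nonneg fun z _ => hop_nonneg y z
  refine le_trans ?_ h1
  have h2 : ∀ y ∈ box (0 : Site d) (L - 1), dg (box 0 L) y = 2 * d := by
    intro y hy
    unfold dg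
    have h3 : box y 1 ⊆ box (0 : Site d) L := by
      intro z hz
      rw [mem_box] at *
      have := sd_triangle 0 y z
      omega
    have h4 := sum_hop y (box 0 L) h3 (fun _ => (1 : ℝ))
    simp only [smul_eq_mul, mul_one] at h4
    rw [h4]
    simp
    ring
  rw [Finset.sum_congr rfl h2, Finset.sum_const, card_box, nsmul_eq_mul]
  have h5 : ((2 * (L - 1) + 1 : ℕ) : ℝ) = 2 * L - 1 := by
    have : 2 * (L - 1) + 1 + 1 = 2 * L := by omega
    have h6 : ((2 * (L - 1) + 1 : ℕ) : ℝ) + 1 = 2 * L := by exact_mod_cast this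
    linarith only [h6]
  have h6 : (2 * L + 1 : ℝ) ^ d * (1 - 2 * d / (2 * L + 1)) ≤ (2 * L - 1 : ℝ) ^ d := by
    have h7 : (0 : ℝ) < 2 * L + 1 := by positivity
    have h8 := one_add_mul_le_pow (a := -(2 / (2 * L + 1 : ℝ))) (by
      rw [neg_le_neg_iff, div_le_iff₀ h7]
      have : (1 : ℝ) ≤ L := by exact_mod_cast hL
      linarith only []) d
    have h9 : (2 * L - 1 : ℝ) = (2 * L + 1) * (1 + -(2 / (2 * L + 1 : ℝ))) := by
      field_simp
      ring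
    rw [h9, mul_pow]
    apply mul_le_mul_of_nonneg_left _ (by positivity)
    refine le_trans (le_of_eq ?_) h8
    ring
  push_cast at h5 ⊢
  rw [h5]
  nlinarith only [h6, h6, (Nat.cast_nonneg d : (0 : ℝ) ≤ d)]

/-- the trace term -/
theorem trace_ge {L N : ℕ} {a : ℝ} (ha : 0 < a) (hN : N ≤ L) (hw : 0 ≤ watson d)
    {q : ℝ} (hq : 0 ≤ q)
    (h : ∀ x ∈ box (0 : Site d) (L - N), watson d - q ≤ gr 0 (box 0 L) (2 * d + a) x x) :
    (2 * L + 1 : ℝ) ^ d * (watson d * (1 - 2 * d * N / (2 * L + 1)) - q) ≤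
      ∑ x ∈ box (0 : Site d) L, gr 0 (box 0 L) (2 * d + a) x x := by
  have hE : 2 * (d : ℝ) < 2 * d + a := by linarith only [ha]
  have h1 : ∑ x ∈ box (0 : Site d) (L - N), gr 0 (box 0 L) (2 * d + a) x x ≤
      ∑ x ∈ box (0 : Site d) L, gr 0 (box 0 L) (2 * d + a) x x :=
    Finset.sum_le_sum_of_subset_of_nonneg (box_mono _ (by omega))
      fun y _ _ => gr_zero_nonneg _ hE _ _
  refine le_trans ?_ h1
  have h2 : ((box (0 : Site d) (L - N)).card : ℝ) * (watson d - q) ≤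
      ∑ x ∈ box (0 : Site d) (L - N), gr 0 (box 0 L) (2 * d + a) x x := by
    rw [← nsmul_eq_mul, ← Finset.sum_const]
    exact Finset.sum_le_sum h
  refine le_trans ?_ h2
  rw [card_box]
  have h5 : ((2 * (L - N) + 1 : ℕ) : ℝ) = 2 * L + 1 - 2 * N := by
    have : 2 * (L - N) + 1 + 2 * N = 2 * L + 1 := by omega
    have h6 : ((2 * (L - N) + 1 : ℕ) : ℝ) + 2 * N = 2 * L + 1 := by exact_mod_cast this
    linarith only [h6]
  have h7 : (0 : ℝ) < 2 * L + 1 := by positivity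
  have hNL : (N : ℝ) ≤ L := by exact_mod_cast hN
  have hN0 : (0 : ℝ) ≤ N := Nat.cast_nonneg N
  have h6 : (2 * L + 1 : ℝ) ^ d * (1 - 2 * d * N / (2 * L + 1)) ≤ (2 * L + 1 - 2 * N : ℝ) ^ d := by
    have h8 := one_add_mul_le_pow (a := -(2 * N / (2 * L + 1 : ℝ))) (by
      rw [neg_le_neg_iff, div_le_iff₀ h7]
      linarith only [h5]) d
    have h9 : (2 * L + 1 - 2 * N : ℝ) = (2 * L + 1) * (1 + -(2 * N / (2 * L + 1 : ℝ))) := by
      field_simp
      ring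
    rw [h9, mul_pow]
    apply mul_le_mul_of_nonneg_left _ (by positivity)
    refine le_trans (le_of_eq ?_) h8
    ring
  have h10 : (2 * L + 1 - 2 * N : ℝ) ^ d ≤ (2 * L + 1 : ℝ) ^ d :=
    pow_le_pow_left₀ (by linarith only [h5]) (by linarith only []) d
  push_cast at h5 ⊢
  rw [h5]
  calc (2 * L + 1 : ℝ) ^ d * (watson d * (1 - 2 * d * N / (2 * L + 1)) - q)
      = (2 * L + 1 : ℝ) ^ d * (1 - 2 * d * N / (2 * L + 1)) * watson d -
        (2 * L + 1 : ℝ) ^ d * q := by ring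
    _ ≤ (2 * L + 1 - 2 * N : ℝ) ^ d * watson d - (2 * L + 1 - 2 * N : ℝ) ^ d * q := by gcongr
    _ = _ := by ring


/-! ### moments -/

section moments

variable {Ω : Type*} [MeasurableSpace Ω] {P : Measure Ω} [IsProbabilityMeasure P]
  {ξ : Site d → Ω → ℝ}

theorem memLp (hm : ∀ y, Measurable (ξ y)) (hl : ∀ y, P.map (ξ y) = gaussianReal 0 1)
    (y : Site d) (p : ℝ≥0) : MemLp (ξ y) p P := by
  have h := memLp_id_gaussianReal (μ := 0) (v := 1) p
  rw [← hl y] at h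
  exact (memLp_map_measure_iff aestronglyMeasurable_id (hm y).aemeasurable).1 h

theorem int_pow (hm : ∀ y, Measurable (ξ y)) (hl : ∀ y, P.map (ξ y) = gaussianReal 0 1)
    (y : Site d) (n : ℕ) : Integrable (fun ω => |ξ y ω| ^ n) P := by
  have := (memLp hm hl y n).integrable_norm_pow'
  simpa using this

theorem mom1 (hm : ∀ y, Measurable (ξ y)) (hl : ∀ y, P.map (ξ y) = gaussianReal 0 1)
    (y : Site d) : ∫ ω, ξ y ω ∂P = 0 := by
  have h := integral_map (μ := P) (hm y).aemeasurable (f := fun t : ℝ => t)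
    aestronglyMeasurable_id
  rw [hl y, integral_id_gaussianReal] at h
  exact h.symm

theorem mom_sq (hm : ∀ y, Measurable (ξ y)) (hl : ∀ y, P.map (ξ y) = gaussianReal 0 1)
    (y : Site d) : ∫ ω, ξ y ω * ξ y ω ∂P = 1 := by
  have h := integral_map (μ := P) (hm y).aemeasurable (f := fun t : ℝ => t * t)
    (by fun_prop)
  have h2 : ∫ t, t * t ∂(gaussianReal 0 1) = 1 := by
    have h3 := variance_id_gaussianReal (μ := 0) (v := 1)
    rw [variance_eq_integral (by fun_prop)] at h3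
    simp only [id, integral_id_gaussianReal, sub_zero, NNReal.coe_one] at h3
    rw [← h3]
    congr 1
    funext t
    ring
  rw [← h, hl y, h2]

theorem mom_cube (hm : ∀ y, Measurable (ξ y)) (hl : ∀ y, P.map (ξ y) = gaussianReal 0 1)
    (y : Site d) : ∫ ω, ξ y ω * ξ y ω * ξ y ω ∂P = 0 := by
  have h := integral_map (μ := P) (hm y).aemeasurable (f := fun t : ℝ => t * t * t)
    (by fun_prop)
  rw [← h, hl y]
  have h1 : (gaussianReal 0 1).map (fun t : ℝ => -t) = gaussianReal 0 1 := by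
    rw [gaussianReal_map_neg, neg_zero]
  have h2 : ∫ t, t * t * t ∂(gaussianReal 0 1) = ∫ t, -(t * t * t) ∂(gaussianReal 0 1) := by
    conv_lhs => rw [← h1]
    rw [integral_map (by fun_prop) (by fun_prop)]
    congr 1
    funext t
    ring
  rw [integral_neg] at h2
  linarith only [h2]

theorem int1 (hm : ∀ y, Measurable (ξ y)) (hl : ∀ y, P.map (ξ y) = gaussianReal 0 1)
    (y : Site d) : Integrable (ξ y) P :=
  memLp_one_iff_integrable.1 (memLp hm hl y 1)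

theorem int2 (hm : ∀ y, Measurable (ξ y)) (hl : ∀ y, P.map (ξ y) = gaussianReal 0 1)
    (x y : Site d) : Integrable (fun ω => ξ x ω * ξ y ω) P := by
  have hx : MemLp (ξ x) 2 P := by simpa using memLp hm hl x 2
  have hy : MemLp (ξ y) 2 P := by simpa using memLp hm hl y 2
  exact hx.integrable_mul hy

theorem int3 (hm : ∀ y, Measurable (ξ y)) (hl : ∀ y, P.map (ξ y) = gaussianReal 0 1)
    (x y z : Site d) : Integrable (fun ω => ξ x ω * ξ y ω * ξ z ω) P := by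
  have h := ((int_pow hm hl x 3).add (int_pow hm hl y 3)).add (int_pow hm hl z 3)
  refine h.mono' ((((hm x).mul (hm y)).mul (hm z)).aestronglyMeasurable) ?_
  filter_upwards with ω
  simp only [Real.norm_eq_abs, Pi.add_apply, abs_mul]
  have hx := abs_nonneg (ξ x ω)
  have hy := abs_nonneg (ξ y ω)
  have hz := abs_nonneg (ξ z ω)
  generalize |ξ x ω| = p at *
  generalize |ξ y ω| = q at *
  generalize |ξ z ω| = r at *
  have key : ∀ m : ℝ, p ≤ m → q ≤ m → r ≤ m → p * q * r ≤ m ^ 3 := by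
    intro m h1 h2 h3
    have hm0 : 0 ≤ m := hx.trans h1
    have : p * q * r ≤ m * m * m :=
      mul_le_mul (mul_le_mul h1 h2 hy hm0) h3 hz (mul_nonneg hm0 hm0)
    calc _ ≤ _ := this
      _ = _ := by ring
  have hp3 : 0 ≤ p ^ 3 := by positivity
  have hq3 : 0 ≤ q ^ 3 := by positivity
  have hr3 : 0 ≤ r ^ 3 := by positivity
  rcases le_total p q with h1 | h1 <;> rcases le_total q r with h2 | h2 <;>
    rcases le_total p r with h3 | h3
  · linarith only [hq3, hp3, key r h3 h2 le_rfl]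
  · linarith only [hr3, hq3, key p le_rfl (h2.trans h3) h3]
  · linarith only [hr3, hp3, key q h1 le_rfl h2]
  · linarith only [hr3, hp3, key q h1 le_rfl h2]
  · linarith only [hq3, hp3, key r h3 h2 le_rfl]
  · linarith only [hr3, hq3, key p le_rfl h1 h3]
  · linarith only [hr3, hq3, key p le_rfl h1 (h2.trans h1)]
  · linarith only [hr3, hq3, key p le_rfl h1 h3]

theorem mom2 (hm : ∀ y, Measurable (ξ y)) (hl : ∀ y, P.map (ξ y) = gaussianReal 0 1)
    (hi : iIndepFun ξ P) (x y : Site d) :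
    ∫ ω, ξ x ω * ξ y ω ∂P = if x = y then 1 else 0 := by
  split_ifs with h
  · subst h
    exact mom_sq hm hl x
  · have := (hi.indepFun h).integral_fun_mul_eq_mul_integral
      (hm x).aestronglyMeasurable (hm y).aestronglyMeasurable
    rw [this, mom1 hm hl, zero_mul]

theorem mom3 (hm : ∀ y, Measurable (ξ y)) (hl : ∀ y, P.map (ξ y) = gaussianReal 0 1)
    (hi : iIndepFun ξ P) (x y z : Site d) :
    ∫ ω, ξ x ω * ξ y ω * ξ z ω ∂P = 0 := by
  have key : ∀ u v w : Site d, u ≠ w → v ≠ w → ∫ ω, ξ u ω * ξ v ω * ξ w ω ∂P = 0 := by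
    intro u v w h1 h2
    have h3 := hi.indepFun_mul_left hm u v w h1 h2
    have := h3.integral_fun_mul_eq_mul_integral
      ((hm u).mul (hm v)).aestronglyMeasurable (hm w).aestronglyMeasurable
    simp only [Pi.mul_apply] at this
    rw [this, mom1 hm hl, mul_zero]
  by_cases h1 : x = z
  · by_cases h2 : y = z
    · subst h1
      subst h2
      exact mom_cube hm hl y
    · have h3 := key x z y (by rw [h1]; exact fun h => h2 h.symm) (fun h => h2 h.symm)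
      rw [← h3]
      congr 1
      funext ω
      ring
  · by_cases h2 : y = z
    · have h3 := key y z x (by rw [h2]; exact fun h => h1 h.symm) (fun h => h1 h.symm)
      rw [← h3]
      congr 1
      funext ω
      ring
    · exact key x y z h1 h2

theorem lin7 {c₀ c₅ c₆ : ℝ} {f1 f2 f3 f4 f5 f6 : Ω → ℝ} (h1 : Integrable f1 P)
    (h2 : Integrable f2 P) (h3 : Integrable f3 P) (h4 : Integrable f4 P) (h5 : Integrable f5 P)
    (h6 : Integrable f6 P) :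
    ∫ ω, (c₀ + f1 ω + f2 ω + f3 ω + 2 * f4 ω + c₅ * f5 ω - c₆ * f6 ω) ∂P =
      c₀ + ∫ ω, f1 ω ∂P + ∫ ω, f2 ω ∂P + ∫ ω, f3 ω ∂P + 2 * ∫ ω, f4 ω ∂P +
        c₅ * ∫ ω, f5 ω ∂P - c₆ * ∫ ω, f6 ω ∂P := by
  have I0 : Integrable (fun _ : Ω => c₀) P := integrable_const _
  have I1 : Integrable (fun ω : Ω => c₀ + f1 ω) P := I0.add h1
  have I2 : Integrable (fun ω : Ω => c₀ + f1 ω + f2 ω) P := I1.add h2
  have I3 : Integrable (fun ω : Ω => c₀ + f1 ω + f2 ω + f3 ω) P := I2.add h3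
  have J4 : Integrable (fun ω : Ω => 2 * f4 ω) P := h4.const_mul _
  have I4 : Integrable (fun ω : Ω => c₀ + f1 ω + f2 ω + f3 ω + 2 * f4 ω) P := I3.add J4
  have J5 : Integrable (fun ω : Ω => c₅ * f5 ω) P := h5.const_mul _
  have I5 : Integrable (fun ω : Ω => c₀ + f1 ω + f2 ω + f3 ω + 2 * f4 ω + c₅ * f5 ω) P :=
    I4.add J5
  have J6 : Integrable (fun ω : Ω => c₆ * f6 ω) P := h6.const_mul _
  rw [integral_sub I5 J6, integral_add I4 J5, integral_add I3 J4, integral_add I2 h3,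
    integral_add I1 h2, integral_add I0 h1, integral_const_mul, integral_const_mul,
    integral_const_mul]
  simp

/-- the expectation of the form is large -/
theorem exp_ge (hm : ∀ y, Measurable (ξ y)) (hl : ∀ y, P.map (ξ y) = gaussianReal 0 1)
    (hi : iIndepFun ξ P) (Λ : Finset (Site d)) {a s : ℝ} (ha : 0 < a) (hs : s ≤ 2 * d + a)
    (σ : ℝ) :
    (∑ y ∈ Λ, dg Λ y - s * Λ.card) + σ ^ 2 * ∑ x ∈ Λ, gr 0 Λ (2 * d + a) x x ≤
      ∫ ω, XX Λ a s (fun y => σ * ξ y ω) ∂P := by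
  have hg : ∀ (x : Site d) (ω : Ω), gv Λ a (fun y => σ * ξ y ω) x =
      ∑ y ∈ Λ, σ * gr 0 Λ (2 * d + a) x y * ξ y ω := by
    intro x ω
    unfold gv
    exact Finset.sum_congr rfl fun y _ => by ring
  have hg2 : ∀ (x : Site d) (ω : Ω), gv Λ a (fun y => σ * ξ y ω) x ^ 2 =
      ∑ y ∈ Λ, ∑ z ∈ Λ, (σ * gr 0 Λ (2 * d + a) x y) * (σ * gr 0 Λ (2 * d + a) x z) *
        (ξ y ω * ξ z ω) := by
    intro x ω
    rw [hg, sq, Finset.sum_mul_sum]
    exact Finset.sum_congr rfl fun y _ => Finset.sum_congr rfl fun z _ => by ring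
  -- integrability and integrals of the terms
  have i1 : ∀ x, Integrable (fun ω => gv Λ a (fun y => σ * ξ y ω) x) P := by
    intro x
    simp_rw [hg]
    exact integrable_finsetSum _ fun y _ => (int1 hm hl y).const_mul _
  have j1 : ∀ x, ∫ ω, gv Λ a (fun y => σ * ξ y ω) x ∂P = 0 := by
    intro x
    simp_rw [hg]
    rw [integral_finsetSum _ fun y _ => (int1 hm hl y).const_mul _]
    refine Finset.sum_eq_zero fun y _ => ?_
    rw [integral_const_mul, mom1 hm hl, mul_zero]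
  have i2 : ∀ x, Integrable (fun ω => gv Λ a (fun y => σ * ξ y ω) x ^ 2) P := by
    intro x
    simp_rw [hg2]
    exact integrable_finsetSum _ fun y _ => integrable_finsetSum _ fun z _ =>
      (int2 hm hl y z).const_mul _
  have hV1 : ∀ (x : Site d) (ω : Ω), σ * ξ x ω * gv Λ a (fun y => σ * ξ y ω) x =
      ∑ y ∈ Λ, (σ ^ 2 * gr 0 Λ (2 * d + a) x y) * (ξ x ω * ξ y ω) := by
    intro x ω
    rw [hg, Finset.mul_sum]
    exact Finset.sum_congr rfl fun y _ => by ring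
  have i3 : ∀ x, Integrable (fun ω => σ * ξ x ω * gv Λ a (fun y => σ * ξ y ω) x) P := by
    intro x
    simp_rw [hV1]
    exact integrable_finsetSum _ fun y _ => (int2 hm hl x y).const_mul _
  have j3 : ∀ x ∈ Λ, ∫ ω, σ * ξ x ω * gv Λ a (fun y => σ * ξ y ω) x ∂P =
      σ ^ 2 * gr 0 Λ (2 * d + a) x x := by
    intro x hx
    simp_rw [hV1]
    rw [integral_finsetSum _ fun y _ => (int2 hm hl x y).const_mul _]
    simp_rw [integral_const_mul, mom2 hm hl hi]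
    simp [hx]
  have hV2 : ∀ (x : Site d) (ω : Ω), σ * ξ x ω * gv Λ a (fun y => σ * ξ y ω) x ^ 2 =
      ∑ y ∈ Λ, ∑ z ∈ Λ, (σ * (σ * gr 0 Λ (2 * d + a) x y) * (σ * gr 0 Λ (2 * d + a) x z)) *
        (ξ x ω * ξ y ω * ξ z ω) := by
    intro x ω
    rw [hg2, Finset.mul_sum]
    refine Finset.sum_congr rfl fun y _ => ?_
    rw [Finset.mul_sum]
    exact Finset.sum_congr rfl fun z _ => by ring
  have i4 : ∀ x, Integrable (fun ω => σ * ξ x ω * gv Λ a (fun y => σ * ξ y ω) x ^ 2) P := by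
    intro x
    simp_rw [hV2]
    exact integrable_finsetSum _ fun y _ => integrable_finsetSum _ fun z _ =>
      (int3 hm hl x y z).const_mul _
  have j4 : ∀ x, ∫ ω, σ * ξ x ω * gv Λ a (fun y => σ * ξ y ω) x ^ 2 ∂P = 0 := by
    intro x
    simp_rw [hV2]
    rw [integral_finsetSum _ fun y _ => integrable_finsetSum _ fun z _ =>
      (int3 hm hl x y z).const_mul _]
    refine Finset.sum_eq_zero fun y _ => ?_
    rw [integral_finsetSum _ fun z _ => (int3 hm hl x y z).const_mul _]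
    refine Finset.sum_eq_zero fun z _ => ?_
    rw [integral_const_mul, mom3 hm hl hi, mul_zero]
  have i5 : ∀ x, Integrable (fun ω => σ * ξ x ω) P := fun x => (int1 hm hl x).const_mul _
  have j5 : ∀ x, ∫ ω, σ * ξ x ω ∂P = 0 := by
    intro x
    rw [integral_const_mul, mom1 hm hl, mul_zero]
  have hX : ∀ ω, XX Λ a s (fun y => σ * ξ y ω) = (∑ y ∈ Λ, dg Λ y - s * Λ.card) +
      (∑ y ∈ Λ, σ * ξ y ω) + (∑ y ∈ Λ, σ * ξ y ω * gv Λ a (fun y => σ * ξ y ω) y) +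
      (∑ y ∈ Λ, σ * ξ y ω * gv Λ a (fun y => σ * ξ y ω) y ^ 2) +
      2 * (∑ y ∈ Λ, dg Λ y * gv Λ a (fun y => σ * ξ y ω) y) +
      (2 * d + a - s) * (∑ y ∈ Λ, gv Λ a (fun y => σ * ξ y ω) y ^ 2) -
      2 * s * (∑ y ∈ Λ, gv Λ a (fun y => σ * ξ y ω) y) := fun ω => XX_eq ha s _
  simp_rw [hX]
  have I5 := integrable_finsetSum Λ fun y _ => i5 y
  have I3 := integrable_finsetSum Λ fun y _ => i3 y
  have I4 := integrable_finsetSum Λ fun y _ => i4 y
  have I6 := integrable_finsetSum Λ fun y (_ : y ∈ Λ) => (i1 y).const_mul (dg Λ y)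
  have I2 := integrable_finsetSum Λ fun y _ => i2 y
  have I1 := integrable_finsetSum Λ fun y _ => i1 y
  rw [lin7 I5 I3 I4 I6 I2 I1,
    integral_finsetSum _ fun y _ => i5 y, integral_finsetSum _ fun y _ => i3 y,
    integral_finsetSum _ fun y _ => i4 y,
    integral_finsetSum _ fun y _ => (i1 y).const_mul (dg Λ y),
    integral_finsetSum _ fun y _ => i1 y]
  have k6 : ∑ y ∈ Λ, ∫ ω, dg Λ y * gv Λ a (fun y => σ * ξ y ω) y ∂P = 0 :=
    Finset.sum_eq_zero fun y _ => by rw [integral_const_mul, j1, mul_zero]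
  have k5 : ∑ y ∈ Λ, ∫ ω, σ * ξ y ω ∂P = 0 := Finset.sum_eq_zero fun y _ => j5 y
  have k4 : ∑ y ∈ Λ, ∫ ω, σ * ξ y ω * gv Λ a (fun y => σ * ξ y ω) y ^ 2 ∂P = 0 :=
    Finset.sum_eq_zero fun y _ => j4 y
  have k1 : ∑ y ∈ Λ, ∫ ω, gv Λ a (fun y => σ * ξ y ω) y ∂P = 0 :=
    Finset.sum_eq_zero fun y _ => j1 y
  rw [k6, k5, k4, k1, Finset.sum_congr rfl j3, ← Finset.mul_sum]
  have k2 : 0 ≤ ∫ ω, ∑ y ∈ Λ, gv Λ a (fun y => σ * ξ y ω) y ^ 2 ∂P :=
    integral_nonneg fun ω => Finset.sum_nonneg fun y _ => sq_nonneg _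
  have k0 : 0 ≤ 2 * d + a - s := by linarith only [hs]
  have := mul_nonneg k0 k2
  linarith only [this]

/-- the second moment method -/
theorem pz {X : Ω → ℝ} (hX : Measurable X) (h1 : Integrable X P)
    (h2 : Integrable (fun ω => X ω ^ 2) P) {e m : ℝ} (he : 0 < e) (hm : 0 < m)
    (hE : e ≤ ∫ ω, X ω ∂P) (hM : ∫ ω, X ω ^ 2 ∂P ≤ m) :
    ENNReal.ofReal (e ^ 2 / m) ≤ P {ω | 0 < X ω} := by
  set A : Set Ω := {ω | 0 < X ω} with hA
  have hAm : MeasurableSet A := measurableSet_lt measurable_const hX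
  have h3 : ∀ ω, X ω ≤ e / m / 2 * X ω ^ 2 + m / (2 * e) * A.indicator (fun _ => (1 : ℝ)) ω := by
    intro ω
    have hc : 0 < e / m := div_pos he hm
    by_cases hω : ω ∈ A
    · rw [Set.indicator_of_mem hω]
      have : 0 ≤ (e / m * X ω - 1) ^ 2 := sq_nonneg _
      have h4 : e / m / 2 * X ω ^ 2 + m / (2 * e) * 1 - X ω =
          m / (2 * e) * (e / m * X ω - 1) ^ 2 := by
        field_simp
        ring
      have h5 : 0 ≤ m / (2 * e) * (e / m * X ω - 1) ^ 2 := by positivity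
      linarith only [h5, h4]
    · rw [Set.indicator_of_notMem hω]
      have : X ω ≤ 0 := not_lt.1 hω
      have : 0 ≤ e / m / 2 * X ω ^ 2 := by positivity
      linarith
  have hAi : Integrable (A.indicator (fun _ => (1 : ℝ))) P :=
    (integrable_const (1 : ℝ)).indicator hAm
  have h4 : ∫ ω, X ω ∂P ≤ ∫ ω, (e / m / 2 * X ω ^ 2 +
      m / (2 * e) * A.indicator (fun _ => (1 : ℝ)) ω) ∂P :=
    integral_mono h1 ((h2.const_mul _).add (hAi.const_mul _)) h3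
  rw [integral_add (h2.const_mul _) (hAi.const_mul _), integral_const_mul, integral_const_mul,
    integral_indicator_const _ hAm] at h4
  simp only [smul_eq_mul, mul_one] at h4
  have h5 : e / m / 2 * ∫ ω, X ω ^ 2 ∂P ≤ e / 2 := by
    calc e / m / 2 * ∫ ω, X ω ^ 2 ∂P ≤ e / m / 2 * m := by gcongr
      _ = e / 2 := by field_simp
  have h6 : e / 2 ≤ m / (2 * e) * P.real A := by linarith only [h5, h4, hE]
  have h7 : e ^ 2 / m ≤ P.real A := by
    rw [div_le_iff₀ hm]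
    have h8 : m / (2 * e) * P.real A * (2 * e) = m * P.real A := by field_simp
    nlinarith only [h8, h5, h4, hE, he]
  rw [← ENNReal.ofReal_toReal (measure_ne_top P A)]
  exact ENNReal.ofReal_le_ofReal h7

/-- the sixth moment of `1 + ∑ |ξ|` -/
theorem sixth (hm : ∀ y, Measurable (ξ y)) (hl : ∀ y, P.map (ξ y) = gaussianReal 0 1)
    (Λ : Finset (Site d)) (hΛ : 1 ≤ Λ.card) :
    Integrable (fun ω => (1 + ∑ y ∈ Λ, |ξ y ω|) ^ 6) P ∧
    ∫ ω, (1 + ∑ y ∈ Λ, |ξ y ω|) ^ 6 ∂P ≤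
      32 * (1 + ∫ t, |t| ^ 6 ∂(gaussianReal 0 1)) * (Λ.card : ℝ) ^ 6 := by
  have hb : ∀ ω, (1 + ∑ y ∈ Λ, |ξ y ω|) ^ 6 ≤
      32 * (1 + (Λ.card : ℝ) ^ 5 * ∑ y ∈ Λ, |ξ y ω| ^ 6) := by
    intro ω
    have hS : 0 ≤ ∑ y ∈ Λ, |ξ y ω| := Finset.sum_nonneg fun y _ => abs_nonneg _
    have h1 := add_pow_le zero_le_one hS 6
    have h2 := pow_sum_div_card_le_sum_pow (s := Λ) (f := fun y => |ξ y ω|)
      (fun y _ => abs_nonneg _) 5
    have hc : (0 : ℝ) < (Λ.card : ℝ) ^ 5 := by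
      have : (0 : ℝ) < Λ.card := by exact_mod_cast hΛ
      positivity
    rw [div_le_iff₀ hc] at h2
    norm_num at h1 h2 ⊢
    nlinarith only [h2, h1]
  have hi : Integrable (fun ω => 32 * (1 + (Λ.card : ℝ) ^ 5 * ∑ y ∈ Λ, |ξ y ω| ^ 6)) P :=
    ((integrable_const (1 : ℝ)).add ((integrable_finsetSum _
      fun y _ => int_pow hm hl y 6).const_mul _)).const_mul _
  have hmeas : Measurable (fun ω => (1 + ∑ y ∈ Λ, |ξ y ω|) ^ 6) :=
    (measurable_const.add (Finset.measurable_fun_sum _ fun y _ => (hm y).abs)).pow_const 6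
  have hint : Integrable (fun ω => (1 + ∑ y ∈ Λ, |ξ y ω|) ^ 6) P := by
    refine hi.mono' hmeas.aestronglyMeasurable ?_
    filter_upwards with ω
    rw [Real.norm_eq_abs, abs_of_nonneg]
    · exact hb ω
    · have hS : 0 ≤ ∑ y ∈ Λ, |ξ y ω| := Finset.sum_nonneg fun y _ => abs_nonneg _
      positivity
  refine ⟨hint, ?_⟩
  have h6 : ∀ y, ∫ ω, |ξ y ω| ^ 6 ∂P = ∫ t, |t| ^ 6 ∂(gaussianReal 0 1) := by
    intro y
    have h := integral_map (μ := P) (hm y).aemeasurable (f := fun t : ℝ => |t| ^ 6)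
      (by fun_prop)
    rw [← h, hl y]
  calc ∫ ω, (1 + ∑ y ∈ Λ, |ξ y ω|) ^ 6 ∂P
      ≤ ∫ ω, 32 * (1 + (Λ.card : ℝ) ^ 5 * ∑ y ∈ Λ, |ξ y ω| ^ 6) ∂P := integral_mono hint hi hb
    _ = 32 * (1 + (Λ.card : ℝ) ^ 6 * ∫ t, |t| ^ 6 ∂(gaussianReal 0 1)) := by
        rw [integral_const_mul, integral_add (integrable_const _) ((integrable_finsetSum _
          fun y _ => int_pow hm hl y 6).const_mul _), integral_const_mul,
          integral_finsetSum _ fun y _ => int_pow hm hl y 6]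
        simp only [h6, integral_const, probReal_univ, smul_eq_mul, mul_one, Finset.sum_const,
          nsmul_eq_mul]
        ring
    _ ≤ _ := by
        have h0 : 0 ≤ ∫ t, |t| ^ 6 ∂(gaussianReal 0 1) := integral_nonneg fun t => by positivity
        have h1 : (1 : ℝ) ≤ (Λ.card : ℝ) ^ 6 := by
          have : (1 : ℝ) ≤ Λ.card := by exact_mod_cast hΛ
          exact one_le_pow₀ this
        nlinarith only [h1]

end moments

/-! ### numerics -/

theorem abs_le_one_add_sq (x : ℝ) : |x| ≤ 1 + x ^ 2 := by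
  nlinarith only [sq_nonneg (|x| - 1), sq_abs x, abs_nonneg x]

theorem exp_half_le {x : ℝ} (h0 : 0 ≤ x) (h1 : x ≤ 1) : Real.exp (x / 2) ≤ 1 + x := by
  have h2 := Real.add_one_le_exp (-(x / 2))
  rw [Real.exp_neg] at h2
  have h3 : 0 < Real.exp (x / 2) := Real.exp_pos _
  have h4 : (-(x / 2) + 1) * Real.exp (x / 2) ≤ 1 := by
    calc (-(x / 2) + 1) * Real.exp (x / 2) ≤ (Real.exp (x / 2))⁻¹ * Real.exp (x / 2) := by gcongr
      _ = 1 := inv_mul_cancel₀ h3.ne'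
  nlinarith only [h4, h1, h0]

theorem tail_small {d : ℕ} (hd : 3 ≤ d) {w τ : ℝ} (hw : 0 ≤ w) (hτ : 0 < τ)
    (h1 : 5040 * (4 * d : ℝ) ^ 7 * τ ≤ 1) (ha1 : (w + 1) * τ ^ 4 ≤ 1) {N : ℕ}
    (hN : (τ⁻¹) ^ 5 ≤ (N : ℝ)) :
    1 / ((w + 1) * τ ^ 4) * (1 + (w + 1) * τ ^ 4 / (2 * d)) ^ (-(N : ℝ)) ≤ τ ^ 2 := by
  have hd' : (3 : ℝ) ≤ d := by exact_mod_cast hd
  set x : ℝ := (w + 1) * τ ^ 4 / (2 * d) with hx
  have hx0 : 0 < x := by positivity
  have hx1 : x ≤ 1 := by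
    rw [hx, div_le_one (by positivity)]
    linarith only [hd', ha1]
  have h2 : (1 + x) ^ (-(N : ℝ)) ≤ Real.exp (-(τ⁻¹ / (4 * d))) := by
    rw [Real.rpow_neg (by positivity), Real.rpow_natCast, Real.exp_neg]
    apply inv_anti₀ (Real.exp_pos _)
    calc Real.exp (τ⁻¹ / (4 * d)) ≤ Real.exp (N * (x / 2)) := by
          apply Real.exp_le_exp.2
          have h3 : τ⁻¹ / (4 * d) = (τ⁻¹) ^ 5 * (τ ^ 4 / (4 * d)) := by
            field_simp
          rw [h3]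
          have h4 : τ ^ 4 / (4 * d) ≤ x / 2 := by
            rw [hx]
            have : (w + 1) * τ ^ 4 / (2 * d) / 2 = (w + 1) * (τ ^ 4 / (4 * d)) := by
              field_simp
              ring
            rw [this]
            have h5 : 0 ≤ τ ^ 4 / (4 * d) := by positivity
            nlinarith only [this, hx0, hw]
          gcongr
      _ = Real.exp (x / 2) ^ N := by rw [← Real.exp_nat_mul]
      _ ≤ (1 + x) ^ N := pow_le_pow_left₀ (Real.exp_pos _).le (exp_half_le hx0.le hx1) N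
  set z : ℝ := τ⁻¹ / (4 * d) with hz
  have hz0 : 0 < z := by positivity
  have h3 : Real.exp (-z) ≤ 5040 * (4 * d : ℝ) ^ 7 * τ ^ 7 := by
    have h4 := Real.pow_div_factorial_le_exp z hz0.le 7
    rw [Real.exp_neg]
    have h5 : z ^ 7 / (Nat.factorial 7 : ℝ) = (5040 * (4 * d : ℝ) ^ 7 * τ ^ 7)⁻¹ := by
      rw [hz]
      have : (Nat.factorial 7 : ℝ) = 5040 := by norm_num [Nat.factorial]
      rw [this]
      field_simp
    rw [h5] at h4
    rw [inv_le_comm₀ (Real.exp_pos _) (by positivity)]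
    exact h4
  calc 1 / ((w + 1) * τ ^ 4) * (1 + x) ^ (-(N : ℝ))
      ≤ 1 / τ ^ 4 * (5040 * (4 * d : ℝ) ^ 7 * τ ^ 7) := by
        apply mul_le_mul _ (h2.trans h3) (by positivity) (by positivity)
        apply one_div_le_one_div_of_le (by positivity)
        have : 0 < τ ^ 4 := by positivity
        nlinarith only [this, hw]
    _ = (5040 * (4 * d : ℝ) ^ 7 * τ) * τ ^ 2 := by field_simp
    _ ≤ 1 * τ ^ 2 := by gcongr
    _ = τ ^ 2 := one_mul _

theorem cmp {d : ℕ} (hd : 3 ≤ d) {t K' : ℝ} {L : ℕ} (ht0 : 0 < t) (ht1 : t ≤ 1)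
    (hL2 : (L : ℝ) ≤ 2 * t⁻¹ ^ 3) (hK'0 : 0 < K') (b4 : t * (K' * 5 ^ (6 * d)) ≤ 1) :
    t ^ (24 * d) ≤ ((2 * L + 1 : ℝ) ^ d * t ^ 3) ^ 2 /
      (K' * ((2 * L + 1 : ℝ) ^ d) ^ 8 / t ^ 4) := by
  set M : ℝ := (2 * L + 1 : ℝ) ^ d with hM
  have hM0 : 0 < M := by positivity
  have h1 : (M * t ^ 3) ^ 2 / (K' * M ^ 8 / t ^ 4) = t ^ 10 / (K' * M ^ 6) := by
    field_simp
  rw [h1, le_div_iff₀ (by positivity)]
  have h2 : (2 * L + 1 : ℝ) * t ^ 3 ≤ 5 := by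
    have h3 : (2 * L + 1 : ℝ) ≤ 4 * t⁻¹ ^ 3 + 1 := by linarith only [hL2]
    have h4 : t⁻¹ ^ 3 * t ^ 3 = 1 := by field_simp
    have h5 : t ^ 3 ≤ 1 := pow_le_one₀ ht0.le ht1
    calc (2 * L + 1 : ℝ) * t ^ 3 ≤ (4 * t⁻¹ ^ 3 + 1) * t ^ 3 := by gcongr
      _ = 4 * (t⁻¹ ^ 3 * t ^ 3) + t ^ 3 := by ring
      _ ≤ 5 := by rw [h4]; linarith only [h5]
  have h3 : M * t ^ (3 * d) ≤ 5 ^ d := by
    rw [hM, pow_mul, ← mul_pow]
    exact pow_le_pow_left₀ (by positivity) h2 d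
  have h4 : t ^ (24 * d) * (K' * M ^ 6) = K' * (M * t ^ (3 * d)) ^ 6 * t ^ (6 * d) := by
    rw [mul_pow, ← pow_mul]
    have : t ^ (24 * d) = t ^ (3 * d * 6) * t ^ (6 * d) := by
      rw [← pow_add]
      congr 1
      ring
    rw [this]
    ring
  rw [h4]
  calc K' * (M * t ^ (3 * d)) ^ 6 * t ^ (6 * d)
      ≤ K' * (5 ^ d) ^ 6 * t ^ (6 * d) := by gcongr
    _ = (t * (K' * 5 ^ (6 * d))) * t ^ (6 * d - 1) := by
        rw [← pow_mul, mul_comm d 6]
        have : t ^ (6 * d) = t * t ^ (6 * d - 1) := by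
          rw [← pow_succ']
          congr 1
          omega
        rw [this]
        ring
    _ ≤ 1 * t ^ (6 * d - 1) := by gcongr
    _ ≤ 1 * t ^ 10 := by
        gcongr 1 * ?_
        exact pow_le_pow_of_le_one ht0.le ht1 (by omega)
    _ = t ^ 10 := one_mul _

theorem low (h : GreenLowStmt) : LowStmt := by
  intro d hd
  obtain ⟨C₁, hC₁, hG⟩ := h d hd
  have hd' : (3 : ℝ) ≤ d := by exact_mod_cast hd
  set w : ℝ := watson d with hwdef
  have hw : 0 ≤ w := tsum_nonneg fun n => by positivity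
  set m6 : ℝ := ∫ t, |t| ^ 6 ∂(gaussianReal 0 1) with hm6
  have hm60 : 0 ≤ m6 := integral_nonneg fun t => by positivity
  set r : ℝ := 1 / (24 * d : ℝ) with hr
  have hr0 : 0 < r := by positivity
  have hr1 : r ≤ 1 / 2 := by
    rw [hr]
    apply one_div_le_one_div_of_le (by norm_num)
    linarith only [hd']
  set C : ℝ := 2 * d ^ 2 + 2 * d * w + C₁ * (w + 1) + 2 with hC
  have hC0 : 0 < C := by positivity
  set K : ℝ := 4 * d + w + C + 1 with hK
  have hK0 : 0 < K := by positivity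
  set K' : ℝ := K ^ 2 * (32 * (1 + m6)) with hK'
  have hK'0 : 0 < K' := by positivity
  set τ₀ : ℝ := min (1 / 2) (min (1 / (w + 1)) (min (1 / (5040 * (4 * d : ℝ) ^ 7))
    (1 / (K' * 5 ^ (6 * d))))) with hτ₀
  have hτ₀0 : 0 < τ₀ := by
    rw [hτ₀]
    refine lt_min (by norm_num) (lt_min (by positivity) (lt_min (by positivity) (by positivity)))
  refine ⟨τ₀ ^ 2, C, by positivity, hC0, ?_⟩
  intro σ hσ hσ1 L hL1 hL2 Ω _ P _ ξ hm hl hi
  set t : ℝ := |σ| with ht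
  have ht0 : 0 < t := abs_pos.2 hσ
  set τ : ℝ := √t with hτ
  have hτ0 : 0 < τ := Real.sqrt_pos.2 ht0
  have hτ2 : τ ^ 2 = t := Real.sq_sqrt ht0.le
  have hτ1 : τ < τ₀ := by
    rw [hτ, Real.sqrt_lt' hτ₀0]
    exact hσ1
  have b1 : τ ≤ 1 / 2 := hτ1.le.trans (min_le_left _ _)
  have b2 : τ ≤ 1 / (w + 1) := hτ1.le.trans ((min_le_right _ _).trans (min_le_left _ _))
  have b3 : τ ≤ 1 / (5040 * (4 * d : ℝ) ^ 7) :=
    hτ1.le.trans ((min_le_right _ _).trans ((min_le_right _ _).trans (min_le_left _ _)))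
  have b4 : τ ≤ 1 / (K' * 5 ^ (6 * d)) :=
    hτ1.le.trans ((min_le_right _ _).trans ((min_le_right _ _).trans (min_le_right _ _)))
  rw [le_div_iff₀ (by positivity)] at b2 b3 b4
  have hτle1 : τ ≤ 1 := by linarith only [b1]
  have ht1 : t ≤ 1 := by
    rw [← hτ2]
    exact pow_le_one₀ hτ0.le hτle1
  have htτ : t ≤ τ := by
    rw [← hτ2]
    exact pow_le_of_le_one hτ0.le hτle1 two_ne_zero
  have hσ2 : σ ^ 2 = t ^ 2 := by rw [ht, sq_abs]
  -- powers
  have hr2 : t ^ (2 + r) = t ^ 2 * t ^ r := by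
    rw [Real.rpow_add ht0]
    congr 1
    exact_mod_cast Real.rpow_natCast t 2
  have htr0 : 0 < t ^ r := Real.rpow_pos_of_pos ht0 r
  have hτr : τ ≤ t ^ r := by
    rw [hτ, Real.sqrt_eq_rpow]
    exact Real.rpow_le_rpow_of_exponent_ge ht0 ht1 hr1
  have htr : t ≤ t ^ r := htτ.trans hτr
  -- the parameters
  set a : ℝ := (w + 1) * τ ^ 4 with hadef
  have hat : a = (w + 1) * t ^ 2 := by
    rw [hadef, ← hτ2]
    ring
  have ha0 : 0 < a := by positivity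
  have ha1 : a ≤ 1 := by
    have : a = (τ * (w + 1)) * τ ^ 3 := by rw [hadef]; ring
    rw [this]
    exact mul_le_one₀ b2 (by positivity) (pow_le_one₀ hτ0.le hτle1)
  set N : ℕ := ⌈(τ⁻¹) ^ 5⌉₊ with hN
  have hN1 : (τ⁻¹) ^ 5 ≤ (N : ℝ) := Nat.le_ceil _
  have hτi : 2 ≤ τ⁻¹ := by
    rw [le_inv_comm₀ (by norm_num) hτ0]
    linarith only [b1]
  have hN2 : (N : ℝ) ≤ 2 * (τ⁻¹) ^ 5 := by
    have h1 : (N : ℝ) < (τ⁻¹) ^ 5 + 1 := Nat.ceil_lt_add_one (by positivity)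
    have h2 : 1 ≤ (τ⁻¹) ^ 5 := one_le_pow₀ (by linarith only [hτi])
    linarith only [h2, h1]
  have ht3 : t⁻¹ ^ 3 = (τ⁻¹) ^ 6 := by
    rw [← hτ2, inv_pow, inv_pow, ← pow_mul]
  have hNL : N ≤ L := by
    have h1 : (N : ℝ) ≤ L := by
      calc (N : ℝ) ≤ 2 * (τ⁻¹) ^ 5 := hN2
        _ ≤ τ⁻¹ * (τ⁻¹) ^ 5 := by gcongr
        _ = t⁻¹ ^ 3 := by rw [ht3]; ring
        _ ≤ L := hL1
    exact_mod_cast h1
  set b : ℝ := w * σ ^ 2 - C * t ^ (2 + r) with hb
  set s : ℝ := 2 * d + w * σ ^ 2 - C * t ^ (2 + r) with hs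
  have ht2r0 : 0 < t ^ (2 + r) := Real.rpow_pos_of_pos ht0 _
  have ht2r1 : t ^ (2 + r) ≤ 1 := Real.rpow_le_one ht0.le ht1 (by positivity)
  have ht2 : t ^ 2 ≤ 1 := pow_le_one₀ ht0.le ht1
  have ht20 : 0 < t ^ 2 := by positivity
  have hs1 : s ≤ 2 * d + a := by
    rw [hs, hat, hσ2]
    have h1 := mul_pos hC0 ht2r0
    have h2 : (w + 1) * t ^ 2 = w * t ^ 2 + t ^ 2 := by ring
    rw [h2]
    clear_value C t w τ
    clear b1 b2 b3 b4 hτ₀ hτ1 hL1 hL2 hN1 hN2 ha1 htr hτr htr0 hτle1 ht1 htτ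
    linarith only [h1, ht20]
  have hs2 : |s| ≤ 2 * d + w + C := by
    rw [abs_le, hs, hσ2]
    have h1 := mul_pos hC0 ht2r0
    have h2 : C * t ^ (2 + r) ≤ C := mul_le_of_le_one_right hC0.le ht2r1
    have h3 : 0 ≤ w * t ^ 2 := by positivity
    have h4 : w * t ^ 2 ≤ w := mul_le_of_le_one_right hw ht2
    constructor <;> linarith only [h2, ht2, ha0, hat, hw, hd', h4, h1, hC0]
  set Λ := box (0 : Site d) L with hΛ
  set M : ℝ := (2 * L + 1 : ℝ) ^ d with hM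
  have hM1 : 1 ≤ M := one_le_pow₀ (by linarith only [(Nat.cast_nonneg L : (0 : ℝ) ≤ L)])
  have hM0 : 0 < M := by linarith only [hM1]
  have hcard : (Λ.card : ℝ) = M := by
    rw [hΛ, card_box]
    push_cast
    rfl
  have hcard1 : 1 ≤ Λ.card := by
    rw [hΛ, card_box]
    exact Nat.one_le_pow _ _ (by omega)
  set q : ℝ := C₁ * a ^ (1 / (2 * d : ℝ)) + (1 / a) * (1 + a / (2 * d)) ^ (-(N : ℝ)) with hq
  have hq0 : 0 ≤ q := by positivity
  have hq1 : q ≤ (C₁ * (w + 1) + 1) * t ^ r := by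
    have h1 : a ^ (1 / (2 * d : ℝ)) ≤ (w + 1) * t ^ r := by
      rw [hat, Real.mul_rpow (by positivity) (by positivity)]
      have h2 : (w + 1) ^ (1 / (2 * d : ℝ)) ≤ w + 1 := by
        have h3 : (w + 1) ^ (1 / (2 * d : ℝ)) ≤ (w + 1) ^ (1 : ℝ) := by
          apply Real.rpow_le_rpow_of_exponent_le (by linarith only [hw])
          rw [div_le_one (by positivity)]
          linarith only [hd']
        rwa [Real.rpow_one] at h3
      have h4 : (t ^ 2) ^ (1 / (2 * d : ℝ)) ≤ t ^ r := by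
        have h5 : (t ^ 2) ^ (1 / (2 * d : ℝ)) = t ^ (2 * (1 / (2 * d : ℝ))) := by
          rw [Real.rpow_mul ht0.le]
          congr 1
          exact_mod_cast (Real.rpow_natCast t 2).symm
        rw [h5]
        apply Real.rpow_le_rpow_of_exponent_ge ht0 ht1
        rw [hr]
        have : 2 * (1 / (2 * d : ℝ)) = 1 / d := by field_simp
        rw [this]
        apply one_div_le_one_div_of_le (by positivity)
        linarith only []
      gcongr
    have h2 := tail_small hd hw hτ0 (by linarith only [b3]) ha1 hN1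
    rw [← hadef, hτ2] at h2
    calc q ≤ C₁ * ((w + 1) * t ^ r) + t := by
          rw [hq]
          gcongr
      _ ≤ C₁ * ((w + 1) * t ^ r) + t ^ r := by gcongr
      _ = _ := by ring
  -- the expectation
  have hEX := exp_ge hm hl hi Λ ha0 hs1 σ
  set X : Ω → ℝ := fun ω => XX Λ a s (fun y => σ * ξ y ω) with hX
  have hR : (0 : ℝ) < 2 * L + 1 := by positivity
  have hLt : t⁻¹ ^ 3 * 2 ≤ 2 * L + 1 := by linarith only [hL1]
  have p1 : 2 * (d : ℝ) * (2 * d / (2 * L + 1)) ≤ 2 * d ^ 2 * t ^ 3 := by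
    have h1 : (2 * (d : ℝ)) / (2 * L + 1) ≤ d * t ^ 3 := by
      rw [div_le_iff₀ hR]
      calc 2 * (d : ℝ) = d * t ^ 3 * (t⁻¹ ^ 3 * 2) := by field_simp
        _ ≤ d * t ^ 3 * (2 * L + 1) := by gcongr
    calc 2 * (d : ℝ) * (2 * d / (2 * L + 1)) ≤ 2 * d * (d * t ^ 3) := by gcongr
      _ = _ := by ring
  have p2 : 2 * (d : ℝ) * N / (2 * L + 1) ≤ 2 * d * τ := by
    rw [div_le_iff₀ hR]
    calc 2 * (d : ℝ) * N ≤ 2 * d * (2 * (τ⁻¹) ^ 5) := by gcongr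
      _ = 2 * d * τ * (t⁻¹ ^ 3 * 2) := by
          rw [ht3]
          field_simp
      _ ≤ 2 * d * τ * (2 * L + 1) := by gcongr
  have e1 := sum_dg_ge (d := d) L
  have e2 := trace_ge (d := d) (L := L) (N := N) (a := a) ha0 hNL hw hq0 (by
    intro x hx
    have h1 := hG Λ N a x ha0 ha1 (by
      intro y hy
      rw [hΛ]
      rw [mem_box] at *
      have := sd_triangle 0 x y
      omega)
    rw [← hwdef, hq]
    linarith only [h1])
  have hE : M * t ^ 3 ≤ ∫ ω, X ω ∂P := by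
    refine le_trans ?_ hEX
    rw [hcard, hσ2]
    have h1 : t ^ 2 * (M * (w * (1 - 2 * d * N / (2 * L + 1)) - q)) ≤
        t ^ 2 * ∑ x ∈ Λ, gr 0 Λ (2 * d + a) x x := by gcongr
    have h2 : t ^ 2 * (M * (w * (1 - 2 * d * τ) - (C₁ * (w + 1) + 1) * t ^ r)) ≤
        t ^ 2 * (M * (w * (1 - 2 * d * N / (2 * L + 1)) - q)) := by gcongr
    have h3 : M * (2 * d - 2 * d ^ 2 * t ^ 3) ≤
        2 * (d : ℝ) * (M * (1 - 2 * d / (2 * L + 1))) := by
      have : 2 * (d : ℝ) * (M * (1 - 2 * d / (2 * L + 1))) =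
        M * (2 * d - 2 * (d : ℝ) * (2 * d / (2 * L + 1))) := by ring
      rw [this]
      gcongr
    have h4 : M * t ^ 3 ≤ M * (2 * d - 2 * d ^ 2 * t ^ 3) - s * M +
        t ^ 2 * (M * (w * (1 - 2 * d * τ) - (C₁ * (w + 1) + 1) * t ^ r)) := by
      have h5 : M * (2 * d - 2 * d ^ 2 * t ^ 3) - s * M +
          t ^ 2 * (M * (w * (1 - 2 * d * τ) - (C₁ * (w + 1) + 1) * t ^ r)) =
          M * (C * (t ^ 2 * t ^ r) - 2 * d ^ 2 * t ^ 3 - t ^ 2 * (2 * d * w * τ) -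
            (C₁ * (w + 1) + 1) * (t ^ 2 * t ^ r)) := by
        rw [hs, hσ2, hr2]
        ring
      rw [h5]
      apply mul_le_mul_of_nonneg_left _ hM0.le
      have h6 : t ^ 3 ≤ t ^ 2 * t ^ r := by
        calc t ^ 3 = t ^ 2 * t := by ring
          _ ≤ _ := by gcongr
      have h7 : 2 * (d : ℝ) ^ 2 * t ^ 3 ≤ 2 * (d : ℝ) ^ 2 * (t ^ 2 * t ^ r) := by gcongr
      have h8 : t ^ 2 * (2 * d * w * τ) ≤ 2 * d * w * (t ^ 2 * t ^ r) := by
        calc t ^ 2 * (2 * d * w * τ) = 2 * d * w * (t ^ 2 * τ) := by ring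
          _ ≤ _ := by gcongr
      rw [hC]
      linarith only [h8, h7, h6]
    linarith only [h4, h3, h2, h1, e1]
  -- measurability and the second moment
  have hXm : Measurable X := by
    rw [hX]
    have h1 : ∀ y : Site d, Measurable (fun ω => gv Λ a (fun y => σ * ξ y ω) y) := by
      intro y
      unfold gv
      exact Finset.measurable_fun_sum _ fun z _ => ((hm z).const_mul σ).const_mul _
    have h2 : ∀ ω, XX Λ a s (fun y => σ * ξ y ω) = (∑ y ∈ Λ, dg Λ y - s * Λ.card) +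
      (∑ y ∈ Λ, σ * ξ y ω) + (∑ y ∈ Λ, σ * ξ y ω * gv Λ a (fun y => σ * ξ y ω) y) +
      (∑ y ∈ Λ, σ * ξ y ω * gv Λ a (fun y => σ * ξ y ω) y ^ 2) +
      2 * (∑ y ∈ Λ, dg Λ y * gv Λ a (fun y => σ * ξ y ω) y) +
      (2 * d + a - s) * (∑ y ∈ Λ, gv Λ a (fun y => σ * ξ y ω) y ^ 2) -
      2 * s * (∑ y ∈ Λ, gv Λ a (fun y => σ * ξ y ω) y) := fun ω => XX_eq ha0 s _
    simp_rw [h2]
    have m1 : Measurable (fun ω => ∑ y ∈ Λ, σ * ξ y ω) :=
      Finset.measurable_fun_sum _ fun y _ => (hm y).const_mul σ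
    have m2 : Measurable (fun ω => ∑ y ∈ Λ, σ * ξ y ω * gv Λ a (fun y => σ * ξ y ω) y) :=
      Finset.measurable_fun_sum _ fun y _ => ((hm y).const_mul σ).mul (h1 y)
    have m3 : Measurable (fun ω => ∑ y ∈ Λ, σ * ξ y ω * gv Λ a (fun y => σ * ξ y ω) y ^ 2) :=
      Finset.measurable_fun_sum _ fun y _ => ((hm y).const_mul σ).mul ((h1 y).pow_const 2)
    have m4 : Measurable (fun ω => ∑ y ∈ Λ, dg Λ y * gv Λ a (fun y => σ * ξ y ω) y) :=
      Finset.measurable_fun_sum _ fun y _ => (h1 y).const_mul _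
    have m5 : Measurable (fun ω => ∑ y ∈ Λ, gv Λ a (fun y => σ * ξ y ω) y ^ 2) :=
      Finset.measurable_fun_sum _ fun y _ => (h1 y).pow_const 2
    have m6 : Measurable (fun ω => ∑ y ∈ Λ, gv Λ a (fun y => σ * ξ y ω) y) :=
      Finset.measurable_fun_sum _ fun y _ => h1 y
    exact (((((measurable_const.add m1).add m2).add m3).add (m4.const_mul 2)).add
      (m5.const_mul _)).sub (m6.const_mul _)
  obtain ⟨hS1, hS2⟩ := sixth hm hl Λ hcard1
  rw [hcard, ← hm6] at hS2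
  have hXle : ∀ ω, |X ω| ≤ M * K * (1 + ∑ y ∈ Λ, |ξ y ω|) ^ 3 / t ^ 2 := by
    intro ω
    have hS0 : 0 ≤ ∑ y ∈ Λ, |ξ y ω| := Finset.sum_nonneg fun y _ => abs_nonneg _
    have h1 := abs_XX_le (Λ := Λ) (a := a) (s := s) ht0 ht1 (by
        rw [hat]
        exact le_mul_of_one_le_left ht20.le (by linarith only [hw]))
      (fun y => σ * ξ y ω) (S := ∑ y ∈ Λ, |ξ y ω|) (by
        simp_rw [abs_mul]
        rw [← Finset.mul_sum]) hS0
    rw [hcard] at h1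
    refine h1.trans ?_
    have h2 : 2 * (d : ℝ) + |s| + 1 ≤ K := by rw [hK]; linarith only [hs2]
    calc M * ((1 + ∑ y ∈ Λ, |ξ y ω|) / t) ^ 2 * ((2 * d + |s| + 1) * (1 + ∑ y ∈ Λ, |ξ y ω|))
        ≤ M * ((1 + ∑ y ∈ Λ, |ξ y ω|) / t) ^ 2 * (K * (1 + ∑ y ∈ Λ, |ξ y ω|)) := by gcongr
      _ = _ := by field_simp
  have hX2 : ∀ ω, X ω ^ 2 ≤ (M ^ 2 * K ^ 2 / t ^ 4) * (1 + ∑ y ∈ Λ, |ξ y ω|) ^ 6 := by
    intro ω
    have h1 := pow_le_pow_left₀ (abs_nonneg _) (hXle ω) 2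
    rw [sq_abs] at h1
    refine h1.trans (le_of_eq ?_)
    field_simp
  have hXi2 : Integrable (fun ω => X ω ^ 2) P := by
    refine (hS1.const_mul (M ^ 2 * K ^ 2 / t ^ 4)).mono' (hXm.pow_const 2).aestronglyMeasurable ?_
    filter_upwards with ω
    rw [Real.norm_eq_abs, abs_of_nonneg (sq_nonneg _)]
    exact hX2 ω
  have hXi : Integrable X P := by
    refine ((integrable_const (1 : ℝ)).add hXi2).mono' hXm.aestronglyMeasurable ?_
    filter_upwards with ω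
    rw [Real.norm_eq_abs, Pi.add_apply]
    exact abs_le_one_add_sq _
  have hXM : ∫ ω, X ω ^ 2 ∂P ≤ K' * M ^ 8 / t ^ 4 := by
    calc ∫ ω, X ω ^ 2 ∂P ≤ ∫ ω, (M ^ 2 * K ^ 2 / t ^ 4) * (1 + ∑ y ∈ Λ, |ξ y ω|) ^ 6 ∂P :=
          integral_mono hXi2 (hS1.const_mul _) hX2
      _ = (M ^ 2 * K ^ 2 / t ^ 4) * ∫ ω, (1 + ∑ y ∈ Λ, |ξ y ω|) ^ 6 ∂P := integral_const_mul _ _
      _ ≤ (M ^ 2 * K ^ 2 / t ^ 4) * (32 * (1 + m6) * M ^ 6) := by gcongr
      _ = _ := by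
          rw [hK']
          ring
  have hfin := pz hXm hXi hXi2 (e := M * t ^ 3) (m := K' * M ^ 8 / t ^ 4) (by positivity)
    (by positivity) hE hXM
  -- the final comparison
  have hcmp : t ^ (24 * d) ≤ (M * t ^ 3) ^ 2 / (K' * M ^ 8 / t ^ 4) :=
    cmp hd ht0 ht1 hL2 hK'0 ((mul_le_mul_of_nonneg_right htτ (by positivity)).trans b4)
  refine (ENNReal.ofReal_le_ofReal hcmp).trans (hfin.trans (measure_mono ?_))
  intro ω hω
  refine ⟨fun y => 1 + gv Λ a (fun y => σ * ξ y ω) y, ?_⟩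
  have hω' : 0 < X ω := hω
  rw [hX] at hω'
  simp only [XX] at hω'
  linarith only [hω']

end Pool.Agent.LOC.H28
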